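import Mathlib
import Pool.Agent.H.MP_d7c5de_lc.PCP

namespace Pool.Agent.Results.MP_c472bb_lc.Undecidable

/-- The image of the word `u` (a list of letter indices) under the morphism whose letter images
are listed in `H`. -/
def image (H : List (List ℕ)) (u : List ℕ) : List ℕ := u.flatMap fun i => H.getD i []

def Comparable (u v : List ℕ) : Prop := u <+: v ∨ v <+: u

/-- The instance with letter images `H`, `G` is a unique equality continuation instance. -/
def IsUEC (H G : List (List ℕ)) : Prop :=
  ∀ u : List ℕ, (∀ i ∈ u, i < H.length) → ∀ a b : ℕ, a < H.length → b < H.length → a ≠ b →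
    Comparable (image H (u ++ [a])) (image G (u ++ [a])) →
    Comparable (image H (u ++ [b])) (image G (u ++ [b])) → image H u = image G u

theorem result : ¬ ∃ f : List (List ℕ) × List (List ℕ) →. Bool, Partrec f ∧
    ∀ H G : List (List ℕ), H.length = G.length → ∃ b ∈ f (H, G), (b = true ↔ IsUEC H G) := by
  rintro ⟨f, hf, h⟩
  obtain ⟨H, G, hG, h1, h2⟩ := Pool.Agent.H.MP_d7c5de_lc.undec_uec
  choose b hb1 hb2 using fun n => h H (G n) (h1 n)
  have hb : Computable b := (hf.comp ((Primrec.const H).pair hG).to_comp).of_eq_tot hb1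
  exact h2 (ComputablePred.computable_iff.2 ⟨b, hb, funext fun n => propext (hb2 n).symm⟩)

end Pool.Agent.Results.MP_c472bb_lc.Undecidable
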